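import Mathlib

/-!
# A sequentially pseudocompact Boolean group that is not selectively sequentially pseudocompact

Let `V` be the vector space over `𝔽₂` with basis `ℝ`. Let `λ_ξ`, `ξ ∈ ℝ`, be linear functionals on `V`
such that for every injective sequence in `V` some `λ_ξ` takes both values infinitely often on it,
and such that every function on a countable set of indices `ξ` is of the form `ξ ↦ λ_ξ(v)`. The group
`G` is the image of `V` in `𝔽₂^ℝ`.
-/

set_option autoImplicit false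

open Set Topology Filter

namespace Pool.Agent.Results.MP_3c9c51_gt.BooleanGroup

/-- for every sequence of nonempty open sets there are an infinite `J` and a point `x` such that
every open neighbourhood of `x` meets all but finitely many `U n`, `n ∈ J` -/
def SequentiallyPseudocompact (X : Type) [TopologicalSpace X] : Prop :=
  ∀ U : ℕ → Set X, (∀ n, IsOpen (U n) ∧ (U n).Nonempty) → ∃ (J : Set ℕ) (x : X), J.Infinite ∧
    ∀ W : Set X, IsOpen W → x ∈ W → {n | n ∈ J ∧ W ∩ U n = ∅}.Finite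

/-- for every sequence of nonempty open sets one can pick points such that some subsequence
converges -/
def SelectivelySequentiallyPseudocompact (X : Type) [TopologicalSpace X] : Prop :=
  ∀ U : ℕ → Set X, (∀ n, IsOpen (U n) ∧ (U n).Nonempty) → ∃ x : ℕ → X, (∀ n, x n ∈ U n) ∧
    ∃ (φ : ℕ → ℕ) (y : X), StrictMono φ ∧ Tendsto (x ∘ φ) atTop (𝓝 y)

/-- the vector space -/
abbrev V : Type := ℝ →₀ ZMod 2

/-- the restriction of a vector to a set of coordinates, as a linear map -/
noncomputable def res (C : Set ℝ) : V →ₗ[ZMod 2] V := by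
  classical
  exact Finsupp.lsum (ZMod 2) fun a => if a ∈ C then Finsupp.lsingle a else 0

theorem res_single_mem {C : Set ℝ} {a : ℝ} (h : a ∈ C) (b : ZMod 2) :
    res C (Finsupp.single a b) = Finsupp.single a b := by
  classical
  simp [res, h]

theorem res_single_notMem {C : Set ℝ} {a : ℝ} (h : a ∉ C) (b : ZMod 2) :
    res C (Finsupp.single a b) = 0 := by
  classical
  simp [res, h]

theorem res_of_supp {C : Set ℝ} {v : V} (h : (v.support : Set ℝ) ⊆ C) : res C v = v := by
  classical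
  conv_lhs => rw [← Finsupp.sum_single v]
  rw [Finsupp.sum, map_sum]
  conv_rhs => rw [← Finsupp.sum_single v]
  rw [Finsupp.sum]
  exact Finset.sum_congr rfl fun a ha => res_single_mem (h ha) _

theorem res_compl_of_supp {C : Set ℝ} {v : V} (h : (v.support : Set ℝ) ⊆ C) : res Cᶜ v = 0 := by
  classical
  conv_lhs => rw [← Finsupp.sum_single v]
  rw [Finsupp.sum, map_sum]
  exact Finset.sum_eq_zero fun a ha => res_single_notMem (C := Cᶜ) (fun h' => h' (h ha)) _

/-- a linear functional that takes both values infinitely often on an injective sequence -/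
theorem exists_oscillating {g : ℕ → V} (hg : Function.Injective g) :
    ∃ μ : V →ₗ[ZMod 2] ZMod 2, {n | μ (g n) = 0}.Infinite ∧ {n | μ (g n) = 1}.Infinite := by
  classical
  obtain ⟨b, hb1, hb2, hb3⟩ := exists_linearIndependent (ZMod 2) (range g)
  have hbinf : b.Infinite := by
    intro hfin
    have h1 : (Submodule.span (ZMod 2) b : Set V).Finite := by
      have : Module.Finite (ZMod 2) (Submodule.span (ZMod 2) b) :=
        Module.Finite.span_of_finite _ hfin
      have : Finite (Submodule.span (ZMod 2) b) := Module.finite_of_finite (ZMod 2)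
      exact Set.toFinite _
    rw [hb2] at h1
    exact (infinite_range_of_injective hg) (h1.subset Submodule.subset_span)
  -- the index set
  let N : Set ℕ := g ⁻¹' b
  have hN : N.Infinite := by
    intro hfin
    apply hbinf
    refine (hfin.image g).subset ?_
    intro v hv
    obtain ⟨n, rfl⟩ := hb1 hv
    exact ⟨n, hv, rfl⟩
  obtain ⟨A, B, hAN, hBN, hAB, hA, hB⟩ : ∃ A B : Set ℕ, A ⊆ N ∧ B ⊆ N ∧ Disjoint A B ∧
      A.Infinite ∧ B.Infinite := by
    let e := Nat.nth (· ∈ N)
    have he : Function.Injective e := Nat.nth_injective hN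
    refine ⟨range fun n => e (2 * n), range fun n => e (2 * n + 1), ?_, ?_, ?_, ?_, ?_⟩
    · rintro _ ⟨n, rfl⟩
      exact Nat.nth_mem_of_infinite hN _
    · rintro _ ⟨n, rfl⟩
      exact Nat.nth_mem_of_infinite hN _
    · rw [Set.disjoint_left]
      rintro _ ⟨n, rfl⟩ ⟨m, hm⟩
      have := he hm
      omega
    · exact infinite_range_of_injective fun m n h => by
        have := he h
        omega
    · exact infinite_range_of_injective fun m n h => by
        have := he h
        omega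
  let φ : b → ZMod 2 := fun v => if ∃ n ∈ A, g n = v then 0 else 1
  have hb4 : LinearIndepOn (ZMod 2) id b := hb3
  let Bs := Module.Basis.extend hb4
  have hsub : b ⊆ hb4.extend (subset_univ b) := hb4.subset_extend _
  let μ : V →ₗ[ZMod 2] ZMod 2 := Bs.constr (ZMod 2) fun v =>
    if h : (v : V) ∈ b then φ ⟨v, h⟩ else 0
  have hμ : ∀ v (h : v ∈ b), μ v = φ ⟨v, h⟩ := by
    intro v h
    have h1 : Bs ⟨v, hsub h⟩ = v := Module.Basis.extend_apply_self hb4 _
    have h2 : μ (Bs ⟨v, hsub h⟩) = φ ⟨v, h⟩ := by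
      rw [Module.Basis.constr_basis]
      simp [h]
    rwa [h1] at h2
  refine ⟨μ, hA.mono fun n hn => ?_, hB.mono fun n hn => ?_⟩
  · have h1 : μ (g n) = φ ⟨g n, hAN hn⟩ := hμ _ _
    change μ (g n) = 0
    rw [h1]
    exact if_pos ⟨n, hn, rfl⟩
  · have h1 : μ (g n) = φ ⟨g n, hBN hn⟩ := hμ _ _
    change μ (g n) = 1
    rw [h1]
    refine if_neg ?_
    rintro ⟨m, hm, hmn⟩
    have h2 : m = n := hg hmn
    subst h2
    exact (Set.disjoint_left.1 hAB) hm hn

open Cardinal in
theorem mk_V : #V = 𝔠 := by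
  have h1 : #V = max #ℝ #(ZMod 2) := Cardinal.mk_finsupp_of_infinite _ _
  rw [h1, Cardinal.mk_real]
  refine max_eq_left ?_
  have : #(ZMod 2) < ℵ₀ := Cardinal.lt_aleph0_of_finite _
  exact this.le.trans Cardinal.aleph0_le_continuum

open Cardinal in
theorem exists_surj_seq : ∃ s : ℝ → (ℕ → V), Function.Surjective s := by
  have h : #(ℕ → V) ≤ #ℝ := by
    rw [Cardinal.mk_real, ← Cardinal.power_def, mk_V, Cardinal.mk_nat]
    exact Cardinal.continuum_power_aleph0.le
  obtain ⟨f⟩ := h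
  exact ⟨Function.invFun f, Function.invFun_surjective f.injective⟩

open Cardinal in
theorem exists_surj_data : ∃ e : ℝ → ((ℕ → ℝ) × (ℕ → ZMod 2)) × ℝ, Function.Surjective e := by
  have h1 : #(ℕ → ℝ) = 𝔠 := by
    rw [← Cardinal.power_def, Cardinal.mk_real, Cardinal.mk_nat]
    exact Cardinal.continuum_power_aleph0
  have h2 : #(ℕ → ZMod 2) ≤ 𝔠 := by
    have h3 : #(ZMod 2) ≤ 𝔠 :=
      (Cardinal.lt_aleph0_of_finite (ZMod 2)).le.trans Cardinal.aleph0_le_continuum
    rw [← Cardinal.power_def, Cardinal.mk_nat]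
    calc #(ZMod 2) ^ ℵ₀ ≤ 𝔠 ^ ℵ₀ := Cardinal.power_le_power_right h3
      _ = 𝔠 := Cardinal.continuum_power_aleph0
  have h : #(((ℕ → ℝ) × (ℕ → ZMod 2)) × ℝ) ≤ #ℝ := by
    rw [Cardinal.mk_prod, Cardinal.mk_prod, Cardinal.lift_id, Cardinal.lift_id, Cardinal.lift_id,
      Cardinal.lift_id, Cardinal.mk_real, h1]
    calc 𝔠 * #(ℕ → ZMod 2) * 𝔠 ≤ 𝔠 * 𝔠 * 𝔠 := by gcongr
      _ = 𝔠 := by rw [Cardinal.continuum_mul_self, Cardinal.continuum_mul_self]
  obtain ⟨f⟩ := h
  exact ⟨Function.invFun f, Function.invFun_surjective f.injective⟩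

/-- the family of functionals -/
theorem exists_family : ∃ lam : ℝ → (V →ₗ[ZMod 2] ZMod 2),
    (∀ g : ℕ → V, Function.Injective g → ∃ ξ, {n | lam ξ (g n) = 0}.Infinite ∧
      {n | lam ξ (g n) = 1}.Infinite) ∧
    ∀ A : Set ℝ, A.Countable → ∀ z : ℝ → ZMod 2, ∃ v, ∀ ξ ∈ A, lam ξ v = z ξ := by
  classical
  obtain ⟨s, hs⟩ := exists_surj_seq
  obtain ⟨e, he⟩ := exists_surj_data
  have hμ : ∀ ξ, ∃ μ : V →ₗ[ZMod 2] ZMod 2, Function.Injective (s ξ) →
      {n | μ (s ξ n) = 0}.Infinite ∧ {n | μ (s ξ n) = 1}.Infinite := by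
    intro ξ
    by_cases h : Function.Injective (s ξ)
    · obtain ⟨μ, h1, h2⟩ := exists_oscillating h
      exact ⟨μ, fun _ => ⟨h1, h2⟩⟩
    · exact ⟨0, fun h' => (h h').elim⟩
  choose μ hμ using hμ
  let C : ℝ → Set ℝ := fun ξ => ⋃ n, ((s ξ n).support : Set ℝ)
  have hC : ∀ ξ, (C ξ).Countable := fun ξ => countable_iUnion fun n => Finset.countable_toSet _
  let zz : ℝ → ℝ → ZMod 2 := fun α ξ =>
    if h : ∃ n, (e α).1.1 n = ξ then (e α).1.2 (Nat.find h) else 0
  let nu : ℝ → (V →ₗ[ZMod 2] ZMod 2) := fun ξ => Finsupp.linearCombination (ZMod 2) fun α => zz α ξ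
  refine ⟨fun ξ => (μ ξ).comp (res (C ξ)) + (nu ξ).comp (res (C ξ)ᶜ), ?_, ?_⟩
  · intro g hg
    obtain ⟨ξ, rfl⟩ := hs g
    have h1 : ∀ n, ((μ ξ).comp (res (C ξ)) + (nu ξ).comp (res (C ξ)ᶜ)) (s ξ n) = μ ξ (s ξ n) := by
      intro n
      have h2 : ((s ξ n).support : Set ℝ) ⊆ C ξ := subset_iUnion (fun n => ((s ξ n).support : Set ℝ)) n
      rw [LinearMap.add_apply, LinearMap.comp_apply, LinearMap.comp_apply, res_of_supp h2,
        res_compl_of_supp h2, map_zero, add_zero]
    refine ⟨ξ, ?_⟩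
    simp only [h1]
    exact hμ ξ hg
  · intro A hA z
    rcases A.eq_empty_or_nonempty with rfl | hne
    · exact ⟨0, fun ξ hξ => hξ.elim⟩
    obtain ⟨a, rfl⟩ := hA.exists_eq_range hne
    have hunion : (⋃ n, C (a n)).Countable := countable_iUnion fun n => hC _
    obtain ⟨α, hα1, hα2⟩ : ∃ α, (e α).1 = (a, fun n => z (a n)) ∧ α ∉ ⋃ n, C (a n) := by
      by_contra hcon
      push Not at hcon
      have h1 : (univ : Set ℝ) ⊆ (fun α => (e α).2) '' (⋃ n, C (a n)) := by
        intro y _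
        obtain ⟨α, hα⟩ := he ((a, fun n => z (a n)), y)
        refine ⟨α, hcon α (by rw [hα]), ?_⟩
        simp only [hα]
      have h2 := (hunion.image fun α => (e α).2).mono h1
      exact Cardinal.not_countable_real h2
    refine ⟨Finsupp.single α 1, ?_⟩
    rintro _ ⟨n, rfl⟩
    have h3 : α ∉ C (a n) := fun h => hα2 (mem_iUnion.2 ⟨n, h⟩)
    rw [LinearMap.add_apply, LinearMap.comp_apply, LinearMap.comp_apply, res_single_notMem h3,
      res_single_mem (C := (C (a n))ᶜ) h3, map_zero, zero_add]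
    simp only [nu]
    rw [Finsupp.linearCombination_single, one_smul]
    have h4 : ∃ m, (e α).1.1 m = a n := ⟨n, by rw [hα1]⟩
    simp only [zz]
    rw [dif_pos h4]
    have h5 := Nat.find_spec h4
    have h6 : ∀ m, (e α).1.2 m = z ((e α).1.1 m) := fun m => by rw [hα1]
    rw [h6, h5]

section group

variable (lam : ℝ → (V →ₗ[ZMod 2] ZMod 2))

/-- the diagonal map -/
noncomputable def diag : V →+ (ℝ → ZMod 2) where
  toFun v ξ := lam ξ v
  map_zero' := by funext ξ; simp
  map_add' v w := by funext ξ; simp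

theorem diag_apply (v : V) (ξ : ℝ) : diag lam v ξ = lam ξ v := rfl

/-- the group: the image of the vector space in the power of the two-element group -/
abbrev G : Type := (diag lam).range

/-- the point of the group given by a vector -/
noncomputable def pt (v : V) : G lam := ⟨diag lam v, v, rfl⟩

theorem exists_pt (x : G lam) : ∃ v, pt lam v = x := by
  obtain ⟨v, hv⟩ := x.2
  exact ⟨v, Subtype.ext hv⟩

theorem pt_apply (v : V) (ξ : ℝ) : (pt lam v : ℝ → ZMod 2) ξ = lam ξ v := rfl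

theorem basic {U : Set (G lam)} (hU : IsOpen U) {v : V} (hv : pt lam v ∈ U) :
    ∃ F : Finset ℝ, ∀ w, (∀ ξ ∈ F, lam ξ w = lam ξ v) → pt lam w ∈ U := by
  obtain ⟨O, hO, rfl⟩ := isOpen_induced_iff.1 hU
  obtain ⟨F, u, hu, hsub⟩ := isOpen_pi_iff.1 hO _ hv
  refine ⟨F, fun w hw => ?_⟩
  apply hsub
  intro ξ hξ
  have h1 := (hu ξ hξ).2
  have h2 : (pt lam w : ℝ → ZMod 2) ξ = (pt lam v : ℝ → ZMod 2) ξ := by
    rw [pt_apply, pt_apply]
    exact hw ξ hξ
  exact h2 ▸ h1

theorem seqPseudocompact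
    (hsurj : ∀ A : Set ℝ, A.Countable → ∀ z : ℝ → ZMod 2, ∃ v, ∀ ξ ∈ A, lam ξ v = z ξ) :
    SequentiallyPseudocompact (G lam) := by
  classical
  intro U hU
  have h1 : ∀ n, ∃ v : V, ∃ F : Finset ℝ, ∀ w, (∀ ξ ∈ F, lam ξ w = lam ξ v) → pt lam w ∈ U n := by
    intro n
    obtain ⟨x, hx⟩ := (hU n).2
    obtain ⟨v, rfl⟩ := exists_pt lam x
    obtain ⟨F, hF⟩ := basic lam (hU n).1 hx
    exact ⟨v, F, hF⟩
  choose v F hF using h1
  let C : Set ℝ := ⋃ n, (F n : Set ℝ)
  have hC : C.Countable := countable_iUnion fun n => Finset.countable_toSet _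
  have : Countable C := hC.to_subtype
  let a : ℕ → (C → Fin 3) := fun n ξ => if (ξ : ℝ) ∈ F n then (if lam ξ (v n) = 0 then 0 else 1) else 2
  obtain ⟨b, φ, hφ, hb⟩ := CompactSpace.tendsto_subseq a
  have hb' : ∀ ξ : C, ∀ᶠ k in atTop, a (φ k) ξ = b ξ := by
    intro ξ
    have h2 := (tendsto_pi_nhds.1 hb) ξ
    rw [nhds_discrete, tendsto_pure] at h2
    exact h2
  let z : ℝ → ZMod 2 := fun ξ => if h : ξ ∈ C then (if b ⟨ξ, h⟩ = 1 then 1 else 0) else 0
  obtain ⟨v0, hv0⟩ := hsurj C hC z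
  refine ⟨range φ, pt lam v0, infinite_range_of_injective hφ.injective, ?_⟩
  intro W hW hx
  obtain ⟨E, hE⟩ := basic lam hW hx
  have h3 : ∀ᶠ k in atTop, ∀ ξ ∈ E, ∀ h : ξ ∈ C, a (φ k) ⟨ξ, h⟩ = b ⟨ξ, h⟩ := by
    rw [Filter.eventually_all_finset]
    intro ξ _
    by_cases h : ξ ∈ C
    · filter_upwards [hb' ⟨ξ, h⟩] with k hk _
      exact hk
    · exact Eventually.of_forall fun k h' => (h h').elim
  obtain ⟨K, hK⟩ := eventually_atTop.1 h3
  refine ((Set.finite_Iio K).image φ).subset ?_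
  rintro n ⟨⟨k, rfl⟩, hn⟩
  refine ⟨k, ?_, rfl⟩
  rw [mem_Iio]
  by_contra hkK
  rw [not_lt] at hkK
  -- the two open sets meet
  obtain ⟨w, hw⟩ := hsurj ((F (φ k) : Set ℝ) ∪ E) ((Finset.countable_toSet _).union
    (Finset.countable_toSet _)) fun ξ => if ξ ∈ F (φ k) then lam ξ (v (φ k)) else lam ξ v0
  have hwU : pt lam w ∈ U (φ k) := by
    apply hF
    intro ξ hξ
    rw [hw ξ (Or.inl hξ), if_pos hξ]
  have hwW : pt lam w ∈ W := by
    apply hE
    intro ξ hξ
    rw [hw ξ (Or.inr hξ)]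
    by_cases h4 : ξ ∈ F (φ k)
    · rw [if_pos h4]
      have h5 : ξ ∈ C := mem_iUnion.2 ⟨φ k, h4⟩
      have h6 := hK k hkK ξ hξ h5
      have h7 : a (φ k) ⟨ξ, h5⟩ = if lam ξ (v (φ k)) = 0 then 0 else 1 := if_pos h4
      rw [hv0 ξ h5]
      simp only [z]
      rw [dif_pos h5, ← h6, h7]
      by_cases h8 : lam ξ (v (φ k)) = 0
      · rw [h8]
        simp
      · rw [if_neg h8]
        have h9 : ∀ c : ZMod 2, c ≠ 0 → c = 1 := by decide
        rw [if_pos rfl]
        exact h9 _ h8
    · rw [if_neg h4]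
  have h10 : pt lam w ∈ W ∩ U (φ k) := ⟨hwW, hwU⟩
  rw [hn] at h10
  exact h10

theorem continuous_coord (ξ : ℝ) : Continuous fun x : G lam => (x : ℝ → ZMod 2) ξ :=
  (continuous_apply ξ).comp continuous_subtype_val

/-- there are no nontrivial convergent sequences -/
theorem no_convergent (hosc : ∀ g : ℕ → V, Function.Injective g → ∃ ξ,
      {n | lam ξ (g n) = 0}.Infinite ∧ {n | lam ξ (g n) = 1}.Infinite)
    {x : ℕ → G lam} (hx : Function.Injective x) (y : G lam) : ¬ Tendsto x atTop (𝓝 y) := by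
  intro hlim
  choose g hg using fun n => exists_pt lam (x n)
  have hginj : Function.Injective g := by
    intro m n hmn
    apply hx
    rw [← hg m, ← hg n, hmn]
  obtain ⟨ξ, h0, h1⟩ := hosc g hginj
  have h2 : Tendsto (fun n => (x n : ℝ → ZMod 2) ξ) atTop (𝓝 ((y : ℝ → ZMod 2) ξ)) :=
    ((continuous_coord lam ξ).tendsto y).comp hlim
  rw [nhds_discrete, tendsto_pure] at h2
  obtain ⟨N, hN⟩ := eventually_atTop.1 h2
  obtain ⟨m, hm, hmN⟩ := h0.exists_gt N
  obtain ⟨n, hn, hnN⟩ := h1.exists_gt N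
  have h3 := hN m hmN.le
  have h4 := hN n hnN.le
  rw [← hg m, pt_apply] at h3
  rw [← hg n, pt_apply] at h4
  have h5 : lam ξ (g m) = 0 := hm
  have h6 : lam ξ (g n) = 1 := hn
  rw [h5] at h3
  rw [h6, ← h3] at h4
  exact absurd h4 (by decide)

theorem not_selective
    (hosc : ∀ g : ℕ → V, Function.Injective g → ∃ ξ,
      {n | lam ξ (g n) = 0}.Infinite ∧ {n | lam ξ (g n) = 1}.Infinite)
    (hsurj : ∀ A : Set ℝ, A.Countable → ∀ z : ℝ → ZMod 2, ∃ v, ∀ ξ ∈ A, lam ξ v = z ξ) :
    ¬ SelectivelySequentiallyPseudocompact (G lam) := by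
  classical
  intro hsel
  let U : ℕ → Set (G lam) := fun n =>
    {x | (x : ℝ → ZMod 2) (n : ℝ) = 1} ∩ ⋂ m ∈ Finset.range n, {x | (x : ℝ → ZMod 2) (m : ℝ) = 0}
  have hU : ∀ n, IsOpen (U n) ∧ (U n).Nonempty := by
    intro n
    constructor
    · have h1 : ∀ (ξ : ℝ) (c : ZMod 2), IsOpen {x : G lam | (x : ℝ → ZMod 2) ξ = c} := fun ξ c =>
        (isOpen_discrete ({c} : Set (ZMod 2))).preimage (continuous_coord lam ξ)
      exact (h1 _ _).inter (isOpen_biInter_finset fun m _ => h1 _ _)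
    · obtain ⟨v, hv⟩ := hsurj (range fun m : ℕ => (m : ℝ)) (countable_range _)
        fun ξ => if ξ = n then 1 else 0
      refine ⟨pt lam v, ?_, ?_⟩
      · change lam (n : ℝ) v = 1
        rw [hv _ ⟨n, rfl⟩, if_pos rfl]
      · simp only [mem_iInter]
        intro m hm
        change lam (m : ℝ) v = 0
        rw [hv _ ⟨m, rfl⟩, if_neg]
        intro h
        have h' : (m : ℝ) = (n : ℝ) := h
        have h2 : m = n := by exact_mod_cast h'
        rw [Finset.mem_range] at hm
        omega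
  obtain ⟨x, hx, φ, y, hφ, hlim⟩ := hsel U hU
  have hne : ∀ m n, m < n → x m ≠ x n := by
    intro m n hmn heq
    have h1 : (x m : ℝ → ZMod 2) (m : ℝ) = 1 := (hx m).1
    have h2 : (x n : ℝ → ZMod 2) (m : ℝ) = 0 := by
      have h3 := (hx n).2
      simp only [mem_iInter] at h3
      exact h3 m (Finset.mem_range.2 hmn)
    rw [heq, h2] at h1
    exact absurd h1 (by decide)
  have hxinj : Function.Injective x := by
    intro m n hmn
    by_contra h
    rcases lt_or_gt_of_ne h with h' | h'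
    · exact hne m n h' hmn
    · exact hne n m h' hmn.symm
  exact no_convergent lam hosc (hxinj.comp hφ.injective) y hlim

end group

/-- There is (in ZFC) a Hausdorff, Tychonoff, Abelian topological group, in which every element has
order at most `2`, that is sequentially pseudocompact but not selectively sequentially pseudocompact;
it has no nontrivial convergent sequences. -/
theorem result : ∃ (G : Type) (_ : AddCommGroup G) (_ : TopologicalSpace G),
    IsTopologicalAddGroup G ∧ T35Space G ∧ (∀ x : G, x + x = 0) ∧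
      SequentiallyPseudocompact G ∧ ¬ SelectivelySequentiallyPseudocompact G ∧
      ∀ x : ℕ → G, Function.Injective x → ∀ y, ¬ Tendsto x atTop (𝓝 y) := by
  obtain ⟨lam, hosc, hsurj⟩ := exists_family
  refine ⟨G lam, inferInstance, inferInstance, inferInstance, inferInstance, ?_,
    seqPseudocompact lam hsurj, not_selective lam hosc hsurj, fun x hx y =>
      no_convergent lam hosc hx y⟩
  intro x
  apply Subtype.ext
  funext ξ
  have h : ∀ c : ZMod 2, c + c = 0 := by decide
  exact h _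

end Pool.Agent.Results.MP_3c9c51_gt.BooleanGroup
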